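import Pool.Agent.Y553.PL.Stm

set_option autoImplicit false

/-!
Project PL (helper553), part DEF (helper813): uniform definability of the predicate `Main`.
-/

namespace Pool.Agent.Y813.PL

open Pool.Agent.Results.MP_abe753_lc.PlusNotLocal FirstOrder
open Pool.Agent.Y553.PL

/-- uniformly definable families of predicates of tuples indexed by `α` -/
def Dfn {α : Type} (R : ∀ V : Type, CG V → (V → ℕ) → (α → V) → Prop) : Prop :=
  ∃ φ : (vocab 16).Formula α, ∀ (V : Type) (G : CG V) (f : V → ℕ) (e : α → V),
    Sat G f φ e ↔ R V G f e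

namespace Dfn

variable {α : Type}

theorem adj (u v : α) : Dfn (fun V G f e => G.graph.Adj (e u) (e v)) :=
  ⟨Language.Relations.formula (L := vocab 16) (Symb.adj : (vocab 16).Relations 2)
    ![Language.Term.var u, Language.Term.var v], fun V G f e => by
    unfold Sat
    let _ := expansion G f
    exact Language.Formula.realize_rel⟩

theorem col (i : Fin 16) (u : α) : Dfn (fun V G f e => e u ∈ G.colour i) :=
  ⟨Language.Relations.formula (L := vocab 16) (Symb.colour i : (vocab 16).Relations 1)
    ![Language.Term.var u], fun V G f e => by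
    unfold Sat
    let _ := expansion G f
    exact Language.Formula.realize_rel⟩

theorem plus (u v w : α) : Dfn (fun V G f e => f (e u) + f (e v) = f (e w)) :=
  ⟨Language.Relations.formula (L := vocab 16) (Symb.plus : (vocab 16).Relations 3)
    ![Language.Term.var u, Language.Term.var v, Language.Term.var w], fun V G f e => by
    unfold Sat
    let _ := expansion G f
    exact Language.Formula.realize_rel⟩

theorem eq (u v : α) : Dfn (fun V G f e => e u = e v) :=
  ⟨Language.Term.equal (Language.Term.var u) (Language.Term.var v), fun V G f e => by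
    unfold Sat
    let _ := expansion G f
    rw [Language.Formula.realize_equal]
    rfl⟩

theorem const (p : Prop) : Dfn (α := α) (fun V G f e => p) := by
  by_cases hp : p
  · refine ⟨⊤, fun V G f e => ?_⟩
    unfold Sat
    let _ := expansion G f
    exact iff_of_true (Language.Formula.realize_top.2 trivial) hp
  · refine ⟨⊥, fun V G f e => ?_⟩
    unfold Sat
    let _ := expansion G f
    exact iff_of_false (fun h => Language.Formula.realize_bot.1 h) hp

variable {R S : ∀ V : Type, CG V → (V → ℕ) → (α → V) → Prop}

theorem congr (h : Dfn R) (h2 : ∀ V G f e, R V G f e ↔ S V G f e) : Dfn S := by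
  obtain ⟨φ, hφ⟩ := h
  exact ⟨φ, fun V G f e => (hφ V G f e).trans (h2 V G f e)⟩

theorem not (h : Dfn R) : Dfn (fun V G f e => ¬ R V G f e) := by
  obtain ⟨φ, hφ⟩ := h
  refine ⟨φ.not, fun V G f e => ?_⟩
  beta_reduce
  rw [← hφ]
  exact Iff.rfl

theorem and (h : Dfn R) (h' : Dfn S) : Dfn (fun V G f e => R V G f e ∧ S V G f e) := by
  obtain ⟨φ, hφ⟩ := h
  obtain ⟨ψ, hψ⟩ := h'
  refine ⟨φ ⊓ ψ, fun V G f e => ?_⟩
  beta_reduce
  rw [← hφ, ← hψ]
  unfold Sat
  let _ := expansion G f
  exact Language.Formula.realize_inf

theorem or (h : Dfn R) (h' : Dfn S) : Dfn (fun V G f e => R V G f e ∨ S V G f e) := by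
  obtain ⟨φ, hφ⟩ := h
  obtain ⟨ψ, hψ⟩ := h'
  refine ⟨φ ⊔ ψ, fun V G f e => ?_⟩
  beta_reduce
  rw [← hφ, ← hψ]
  unfold Sat
  let _ := expansion G f
  exact Language.Formula.realize_sup

theorem imp (h : Dfn R) (h' : Dfn S) : Dfn (fun V G f e => R V G f e → S V G f e) := by
  obtain ⟨φ, hφ⟩ := h
  obtain ⟨ψ, hψ⟩ := h'
  refine ⟨φ.imp ψ, fun V G f e => ?_⟩
  beta_reduce
  rw [← hφ, ← hψ]
  unfold Sat
  let _ := expansion G f
  exact Language.Formula.realize_imp

theorem iff (h : Dfn R) (h' : Dfn S) : Dfn (fun V G f e => (R V G f e ↔ S V G f e)) := by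
  obtain ⟨φ, hφ⟩ := h
  obtain ⟨ψ, hψ⟩ := h'
  refine ⟨φ.iff ψ, fun V G f e => ?_⟩
  beta_reduce
  rw [← hφ, ← hψ]
  unfold Sat
  let _ := expansion G f
  exact Language.Formula.realize_iff

theorem ne (u v : α) : Dfn (fun V G f e => e u ≠ e v) := (eq u v).not

theorem ex {R : ∀ V : Type, CG V → (V → ℕ) → V → (α → V) → Prop}
    (h : Dfn (α := Option α) (fun V G f e => R V G f (e none) (fun i => e (some i)))) :
    Dfn (fun V G f e => ∃ x, R V G f x e) := by
  obtain ⟨φ, hφ⟩ := h
  refine ⟨(Language.BoundedFormula.relabel (n := 1) (k := 0)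
    (fun o : Option α => o.elim (Sum.inr 0 : α ⊕ Fin 1) Sum.inl) φ).ex, fun V G f e => ?_⟩
  have key : Sat G f ((Language.BoundedFormula.relabel (n := 1) (k := 0)
    (fun o : Option α => o.elim (Sum.inr 0 : α ⊕ Fin 1) Sum.inl) φ).ex) e ↔
      ∃ a : V, Sat G f φ (fun o : Option α => o.elim a e) := by
    unfold Sat Language.Formula.Realize
    let _ := expansion G f
    rw [Language.BoundedFormula.realize_ex]
    refine exists_congr fun a => ?_
    rw [Language.BoundedFormula.realize_relabel]
    refine iff_of_eq ?_
    congr 1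
    · funext y
      cases y with
      | none => simp [Fin.snoc]
      | some y => simp
    · exact Subsingleton.elim _ _
  rw [key]
  refine exists_congr fun a => ?_
  exact hφ V G f _

theorem all {R : ∀ V : Type, CG V → (V → ℕ) → V → (α → V) → Prop}
    (h : Dfn (α := Option α) (fun V G f e => R V G f (e none) (fun i => e (some i)))) :
    Dfn (fun V G f e => ∀ x, R V G f x e) := by
  have h1 := (ex (R := fun V G f x e => ¬ R V G f x e) h.not).not
  refine h1.congr fun V G f e => ?_
  push Not
  exact Iff.rfl

theorem exs {β : Type} [Finite β] {R : ∀ V : Type, CG V → (V → ℕ) → (β → V) → (α → V) → Prop}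
    (h : Dfn (α := α ⊕ β)
      (fun V G f e => R V G f (fun i => e (Sum.inr i)) (fun i => e (Sum.inl i)))) :
    Dfn (fun V G f e => ∃ x : β → V, R V G f x e) := by
  obtain ⟨φ, hφ⟩ := h
  refine ⟨Language.Formula.iExs β φ, fun V G f e => ?_⟩
  have key : Sat G f (Language.Formula.iExs β φ) e ↔ ∃ a : β → V, Sat G f φ (Sum.elim e a) := by
    unfold Sat
    let _ := expansion G f
    exact Language.Formula.realize_iExs
  rw [key]
  refine exists_congr fun a => ?_
  exact hφ V G f _

theorem alls {β : Type} [Finite β] {R : ∀ V : Type, CG V → (V → ℕ) → (β → V) → (α → V) → Prop}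
    (h : Dfn (α := α ⊕ β)
      (fun V G f e => R V G f (fun i => e (Sum.inr i)) (fun i => e (Sum.inl i)))) :
    Dfn (fun V G f e => ∀ x : β → V, R V G f x e) := by
  have h1 := (exs (R := fun V G f x e => ¬ R V G f x e) h.not).not
  refine h1.congr fun V G f e => ?_
  push Not
  exact Iff.rfl

theorem fall {n : ℕ} {R : Fin n → ∀ V : Type, CG V → (V → ℕ) → (α → V) → Prop}
    (h : ∀ i, Dfn (R i)) : Dfn (fun V G f e => ∀ i : Fin n, R i V G f e) := by
  choose φ hφ using h
  refine ⟨Language.Formula.iInf φ, fun V G f e => ?_⟩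
  have key : Sat G f (Language.Formula.iInf φ) e ↔ ∀ i, Sat G f (φ i) e := by
    unfold Sat
    let _ := expansion G f
    exact Language.Formula.realize_iInf
  rw [key]
  exact forall_congr' fun i => hφ i V G f e

end Dfn

section

variable {α : Type}

theorem d_arr (w a b : α) : Dfn (fun V G f e => Arr G (e w) (e a) (e b)) := by
  unfold Pool.Agent.Y553.PL.Arr
  repeat (first
    | exact Dfn.adj _ _
    | exact Dfn.col _ _
    | exact Dfn.eq _ _
    | exact Dfn.ne _ _
    | exact Dfn.plus _ _ _
    | apply Dfn.and
    | apply Dfn.or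
    | apply Dfn.not
    | apply Dfn.iff
    | apply Dfn.ex
    | apply Dfn.all
    | apply Dfn.exs
    | apply Dfn.alls
    | apply Dfn.imp
    | (apply Dfn.fall; intro _)
    | exact Dfn.const _)

theorem d_lt (a b : α) : Dfn (fun V G f e => Lt G (e a) (e b)) := by
  unfold Pool.Agent.Y553.PL.Lt
  repeat (first
    | exact Dfn.adj _ _
    | exact Dfn.col _ _
    | exact Dfn.eq _ _
    | exact Dfn.ne _ _
    | exact Dfn.plus _ _ _
    | exact d_arr _ _ _
    | apply Dfn.and
    | apply Dfn.or
    | apply Dfn.not
    | apply Dfn.iff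
    | apply Dfn.ex
    | apply Dfn.all
    | apply Dfn.exs
    | apply Dfn.alls
    | apply Dfn.imp
    | (apply Dfn.fall; intro _)
    | exact Dfn.const _)

theorem d_first (a : α) : Dfn (fun V G f e => First G (e a)) := by
  unfold Pool.Agent.Y553.PL.First
  repeat (first
    | exact Dfn.adj _ _
    | exact Dfn.col _ _
    | exact Dfn.eq _ _
    | exact Dfn.ne _ _
    | exact Dfn.plus _ _ _
    | exact d_arr _ _ _
    | exact d_lt _ _
    | apply Dfn.and
    | apply Dfn.or
    | apply Dfn.not
    | apply Dfn.iff
    | apply Dfn.ex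
    | apply Dfn.all
    | apply Dfn.exs
    | apply Dfn.alls
    | apply Dfn.imp
    | (apply Dfn.fall; intro _)
    | exact Dfn.const _)

theorem d_last (a : α) : Dfn (fun V G f e => Last G (e a)) := by
  unfold Pool.Agent.Y553.PL.Last
  repeat (first
    | exact Dfn.adj _ _
    | exact Dfn.col _ _
    | exact Dfn.eq _ _
    | exact Dfn.ne _ _
    | exact Dfn.plus _ _ _
    | exact d_arr _ _ _
    | exact d_lt _ _
    | exact d_first _
    | apply Dfn.and
    | apply Dfn.or
    | apply Dfn.not
    | apply Dfn.iff
    | apply Dfn.ex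
    | apply Dfn.all
    | apply Dfn.exs
    | apply Dfn.alls
    | apply Dfn.imp
    | (apply Dfn.fall; intro _)
    | exact Dfn.const _)

theorem d_cons (a b : α) : Dfn (fun V G f e => Cons G (e a) (e b)) := by
  unfold Pool.Agent.Y553.PL.Cons
  repeat (first
    | exact Dfn.adj _ _
    | exact Dfn.col _ _
    | exact Dfn.eq _ _
    | exact Dfn.ne _ _
    | exact Dfn.plus _ _ _
    | exact d_arr _ _ _
    | exact d_lt _ _
    | exact d_first _
    | exact d_last _
    | apply Dfn.and
    | apply Dfn.or
    | apply Dfn.not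
    | apply Dfn.iff
    | apply Dfn.ex
    | apply Dfn.all
    | apply Dfn.exs
    | apply Dfn.alls
    | apply Dfn.imp
    | (apply Dfn.fall; intro _)
    | exact Dfn.const _)

theorem d_acc (z q x y : α) : Dfn (fun V G f e => Acc G (e z) (e q) (e x) (e y)) := by
  unfold Pool.Agent.Y553.PL.Acc
  repeat (first
    | exact Dfn.adj _ _
    | exact Dfn.col _ _
    | exact Dfn.eq _ _
    | exact Dfn.ne _ _
    | exact Dfn.plus _ _ _
    | exact d_arr _ _ _
    | exact d_lt _ _
    | exact d_first _
    | exact d_last _
    | exact d_cons _ _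
    | apply Dfn.and
    | apply Dfn.or
    | apply Dfn.not
    | apply Dfn.iff
    | apply Dfn.ex
    | apply Dfn.all
    | apply Dfn.exs
    | apply Dfn.alls
    | apply Dfn.imp
    | (apply Dfn.fall; intro _)
    | exact Dfn.const _)

theorem d_step (u v : α) : Dfn (fun V G f e => Step G (e u) (e v)) := by
  unfold Pool.Agent.Y553.PL.Step
  repeat (first
    | exact Dfn.adj _ _
    | exact Dfn.col _ _
    | exact Dfn.eq _ _
    | exact Dfn.ne _ _
    | exact Dfn.plus _ _ _
    | exact d_arr _ _ _
    | exact d_lt _ _
    | exact d_first _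
    | exact d_last _
    | exact d_cons _ _
    | exact d_acc _ _ _ _
    | apply Dfn.and
    | apply Dfn.or
    | apply Dfn.not
    | apply Dfn.iff
    | apply Dfn.ex
    | apply Dfn.all
    | apply Dfn.exs
    | apply Dfn.alls
    | apply Dfn.imp
    | (apply Dfn.fall; intro _)
    | exact Dfn.const _)

theorem d_ax : Dfn (α := α) (fun V G f e => Ax G) := by
  have h_cover : Dfn (α := α) (fun V G f e => ∀ x, x ∈ G.colour 0 ∨ x ∈ G.colour 1 ∨ x ∈ G.colour 2 ∨ x ∈ G.colour 3 ∨ x ∈ G.colour 4) := by
    repeat (first
      | exact Dfn.adj _ _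
      | exact Dfn.col _ _
      | exact Dfn.eq _ _
      | exact Dfn.ne _ _
      | exact Dfn.plus _ _ _
      | exact d_arr _ _ _
      | exact d_lt _ _
      | exact d_first _
      | exact d_last _
      | exact d_cons _ _
      | exact d_acc _ _ _ _
      | exact d_step _ _
      | apply Dfn.and
      | apply Dfn.or
      | apply Dfn.not
      | apply Dfn.iff
      | apply Dfn.ex
      | apply Dfn.all
      | apply Dfn.exs
      | apply Dfn.alls
      | apply Dfn.imp
      | (apply Dfn.fall; intro _)
      | exact Dfn.const _)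
  have h_disj : Dfn (α := α) (fun V G f e => ∀ x, x ∈ G.colour 0 → ¬ x ∈ G.colour 4) := by
    repeat (first
      | exact Dfn.adj _ _
      | exact Dfn.col _ _
      | exact Dfn.eq _ _
      | exact Dfn.ne _ _
      | exact Dfn.plus _ _ _
      | exact d_arr _ _ _
      | exact d_lt _ _
      | exact d_first _
      | exact d_last _
      | exact d_cons _ _
      | exact d_acc _ _ _ _
      | exact d_step _ _
      | apply Dfn.and
      | apply Dfn.or
      | apply Dfn.not
      | apply Dfn.iff
      | apply Dfn.ex
      | apply Dfn.all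
      | apply Dfn.exs
      | apply Dfn.alls
      | apply Dfn.imp
      | (apply Dfn.fall; intro _)
      | exact Dfn.const _)
  have h_fst : Dfn (α := α) (fun V G f e => ∀ d, d ∈ G.colour 3 → ∃ u, u ∈ G.colour 1 ∧ G.graph.Adj d u) := by
    repeat (first
      | exact Dfn.adj _ _
      | exact Dfn.col _ _
      | exact Dfn.eq _ _
      | exact Dfn.ne _ _
      | exact Dfn.plus _ _ _
      | exact d_arr _ _ _
      | exact d_lt _ _
      | exact d_first _
      | exact d_last _
      | exact d_cons _ _
      | exact d_acc _ _ _ _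
      | exact d_step _ _
      | apply Dfn.and
      | apply Dfn.or
      | apply Dfn.not
      | apply Dfn.iff
      | apply Dfn.ex
      | apply Dfn.all
      | apply Dfn.exs
      | apply Dfn.alls
      | apply Dfn.imp
      | (apply Dfn.fall; intro _)
      | exact Dfn.const _)
  have h_snd : Dfn (α := α) (fun V G f e => ∀ d, d ∈ G.colour 3 → ∃ v, v ∈ G.colour 2 ∧ G.graph.Adj d v) := by
    repeat (first
      | exact Dfn.adj _ _
      | exact Dfn.col _ _
      | exact Dfn.eq _ _
      | exact Dfn.ne _ _
      | exact Dfn.plus _ _ _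
      | exact d_arr _ _ _
      | exact d_lt _ _
      | exact d_first _
      | exact d_last _
      | exact d_cons _ _
      | exact d_acc _ _ _ _
      | exact d_step _ _
      | apply Dfn.and
      | apply Dfn.or
      | apply Dfn.not
      | apply Dfn.iff
      | apply Dfn.ex
      | apply Dfn.all
      | apply Dfn.exs
      | apply Dfn.alls
      | apply Dfn.imp
      | (apply Dfn.fall; intro _)
      | exact Dfn.const _)
  have h_pairu : Dfn (α := α) (fun V G f e => ∀ d, d ∈ G.colour 3 → ∀ e, e ∈ G.colour 3 → ∀ u, u ∈ G.colour 1 → ∀ v, v ∈ G.colour 2 → G.graph.Adj d u → G.graph.Adj d v → G.graph.Adj e u → G.graph.Adj e v → d = e) := by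
    repeat (first
      | exact Dfn.adj _ _
      | exact Dfn.col _ _
      | exact Dfn.eq _ _
      | exact Dfn.ne _ _
      | exact Dfn.plus _ _ _
      | exact d_arr _ _ _
      | exact d_lt _ _
      | exact d_first _
      | exact d_last _
      | exact d_cons _ _
      | exact d_acc _ _ _ _
      | exact d_step _ _
      | apply Dfn.and
      | apply Dfn.or
      | apply Dfn.not
      | apply Dfn.iff
      | apply Dfn.ex
      | apply Dfn.all
      | apply Dfn.exs
      | apply Dfn.alls
      | apply Dfn.imp
      | (apply Dfn.fall; intro _)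
      | exact Dfn.const _)
  have h_lt_irr : Dfn (α := α) (fun V G f e => ∀ a, a ∈ G.colour 1 → ¬ Lt G a a) := by
    repeat (first
      | exact Dfn.adj _ _
      | exact Dfn.col _ _
      | exact Dfn.eq _ _
      | exact Dfn.ne _ _
      | exact Dfn.plus _ _ _
      | exact d_arr _ _ _
      | exact d_lt _ _
      | exact d_first _
      | exact d_last _
      | exact d_cons _ _
      | exact d_acc _ _ _ _
      | exact d_step _ _
      | apply Dfn.and
      | apply Dfn.or
      | apply Dfn.not
      | apply Dfn.iff
      | apply Dfn.ex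
      | apply Dfn.all
      | apply Dfn.exs
      | apply Dfn.alls
      | apply Dfn.imp
      | (apply Dfn.fall; intro _)
      | exact Dfn.const _)
  have h_lt_trans : Dfn (α := α) (fun V G f e => ∀ a, a ∈ G.colour 1 → ∀ b, b ∈ G.colour 1 → ∀ c, c ∈ G.colour 1 → Lt G a b → Lt G b c → Lt G a c) := by
    repeat (first
      | exact Dfn.adj _ _
      | exact Dfn.col _ _
      | exact Dfn.eq _ _
      | exact Dfn.ne _ _
      | exact Dfn.plus _ _ _
      | exact d_arr _ _ _
      | exact d_lt _ _
      | exact d_first _
      | exact d_last _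
      | exact d_cons _ _
      | exact d_acc _ _ _ _
      | exact d_step _ _
      | apply Dfn.and
      | apply Dfn.or
      | apply Dfn.not
      | apply Dfn.iff
      | apply Dfn.ex
      | apply Dfn.all
      | apply Dfn.exs
      | apply Dfn.alls
      | apply Dfn.imp
      | (apply Dfn.fall; intro _)
      | exact Dfn.const _)
  have h_lt_tot : Dfn (α := α) (fun V G f e => ∀ a, a ∈ G.colour 1 → ∀ b, b ∈ G.colour 1 → a = b ∨ Lt G a b ∨ Lt G b a) := by
    repeat (first
      | exact Dfn.adj _ _
      | exact Dfn.col _ _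
      | exact Dfn.eq _ _
      | exact Dfn.ne _ _
      | exact Dfn.plus _ _ _
      | exact d_arr _ _ _
      | exact d_lt _ _
      | exact d_first _
      | exact d_last _
      | exact d_cons _ _
      | exact d_acc _ _ _ _
      | exact d_step _ _
      | apply Dfn.and
      | apply Dfn.or
      | apply Dfn.not
      | apply Dfn.iff
      | apply Dfn.ex
      | apply Dfn.all
      | apply Dfn.exs
      | apply Dfn.alls
      | apply Dfn.imp
      | (apply Dfn.fall; intro _)
      | exact Dfn.const _)
  have h_mat : Dfn (α := α) (fun V G f e => ∀ a, a ∈ G.colour 1 → ∃ b, b ∈ G.colour 2 ∧ G.graph.Adj a b) := by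
    repeat (first
      | exact Dfn.adj _ _
      | exact Dfn.col _ _
      | exact Dfn.eq _ _
      | exact Dfn.ne _ _
      | exact Dfn.plus _ _ _
      | exact d_arr _ _ _
      | exact d_lt _ _
      | exact d_first _
      | exact d_last _
      | exact d_cons _ _
      | exact d_acc _ _ _ _
      | exact d_step _ _
      | apply Dfn.and
      | apply Dfn.or
      | apply Dfn.not
      | apply Dfn.iff
      | apply Dfn.ex
      | apply Dfn.all
      | apply Dfn.exs
      | apply Dfn.alls
      | apply Dfn.imp
      | (apply Dfn.fall; intro _)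
      | exact Dfn.const _)
  have h_matu : Dfn (α := α) (fun V G f e => ∀ a, a ∈ G.colour 1 → ∀ a', a' ∈ G.colour 1 → ∀ b, b ∈ G.colour 2 → G.graph.Adj a b → G.graph.Adj a' b → a = a') := by
    repeat (first
      | exact Dfn.adj _ _
      | exact Dfn.col _ _
      | exact Dfn.eq _ _
      | exact Dfn.ne _ _
      | exact Dfn.plus _ _ _
      | exact d_arr _ _ _
      | exact d_lt _ _
      | exact d_first _
      | exact d_last _
      | exact d_cons _ _
      | exact d_acc _ _ _ _
      | exact d_step _ _
      | apply Dfn.and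
      | apply Dfn.or
      | apply Dfn.not
      | apply Dfn.iff
      | apply Dfn.ex
      | apply Dfn.all
      | apply Dfn.exs
      | apply Dfn.alls
      | apply Dfn.imp
      | (apply Dfn.fall; intro _)
      | exact Dfn.const _)
  have h_val : Dfn (α := α) (fun V G f e => ∀ w, w ∈ G.colour 4 → ∀ a, a ∈ G.colour 1 → ∃ b, b ∈ G.colour 2 ∧ Arr G w a b) := by
    repeat (first
      | exact Dfn.adj _ _
      | exact Dfn.col _ _
      | exact Dfn.eq _ _
      | exact Dfn.ne _ _
      | exact Dfn.plus _ _ _
      | exact d_arr _ _ _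
      | exact d_lt _ _
      | exact d_first _
      | exact d_last _
      | exact d_cons _ _
      | exact d_acc _ _ _ _
      | exact d_step _ _
      | apply Dfn.and
      | apply Dfn.or
      | apply Dfn.not
      | apply Dfn.iff
      | apply Dfn.ex
      | apply Dfn.all
      | apply Dfn.exs
      | apply Dfn.alls
      | apply Dfn.imp
      | (apply Dfn.fall; intro _)
      | exact Dfn.const _)
  have h_valu : Dfn (α := α) (fun V G f e => ∀ w, w ∈ G.colour 4 → ∀ a, a ∈ G.colour 1 → ∀ b, b ∈ G.colour 2 → ∀ b', b' ∈ G.colour 2 → Arr G w a b → Arr G w a b' → b = b') := by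
    repeat (first
      | exact Dfn.adj _ _
      | exact Dfn.col _ _
      | exact Dfn.eq _ _
      | exact Dfn.ne _ _
      | exact Dfn.plus _ _ _
      | exact d_arr _ _ _
      | exact d_lt _ _
      | exact d_first _
      | exact d_last _
      | exact d_cons _ _
      | exact d_acc _ _ _ _
      | exact d_step _ _
      | apply Dfn.and
      | apply Dfn.or
      | apply Dfn.not
      | apply Dfn.iff
      | apply Dfn.ex
      | apply Dfn.all
      | apply Dfn.exs
      | apply Dfn.alls
      | apply Dfn.imp
      | (apply Dfn.fall; intro _)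
      | exact Dfn.const _)
  have h_wne : Dfn (α := α) (fun V G f e => ∃ w, w ∈ G.colour 4) := by
    repeat (first
      | exact Dfn.adj _ _
      | exact Dfn.col _ _
      | exact Dfn.eq _ _
      | exact Dfn.ne _ _
      | exact Dfn.plus _ _ _
      | exact d_arr _ _ _
      | exact d_lt _ _
      | exact d_first _
      | exact d_last _
      | exact d_cons _ _
      | exact d_acc _ _ _ _
      | exact d_step _ _
      | apply Dfn.and
      | apply Dfn.or
      | apply Dfn.not
      | apply Dfn.iff
      | apply Dfn.ex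
      | apply Dfn.all
      | apply Dfn.exs
      | apply Dfn.alls
      | apply Dfn.imp
      | (apply Dfn.fall; intro _)
      | exact Dfn.const _)
  have h_upd : Dfn (α := α) (fun V G f e => ∀ w, w ∈ G.colour 4 → ∀ a, a ∈ G.colour 1 → ∀ b, b ∈ G.colour 2 → ∃ w', w' ∈ G.colour 4 ∧ Arr G w' a b ∧ ∀ a', a' ∈ G.colour 1 → a' ≠ a → ∀ b', b' ∈ G.colour 2 → (Arr G w' a' b' ↔ Arr G w a' b')) := by
    repeat (first
      | exact Dfn.adj _ _
      | exact Dfn.col _ _
      | exact Dfn.eq _ _
      | exact Dfn.ne _ _
      | exact Dfn.plus _ _ _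
      | exact d_arr _ _ _
      | exact d_lt _ _
      | exact d_first _
      | exact d_last _
      | exact d_cons _ _
      | exact d_acc _ _ _ _
      | exact d_step _ _
      | apply Dfn.and
      | apply Dfn.or
      | apply Dfn.not
      | apply Dfn.iff
      | apply Dfn.ex
      | apply Dfn.all
      | apply Dfn.exs
      | apply Dfn.alls
      | apply Dfn.imp
      | (apply Dfn.fall; intro _)
      | exact Dfn.const _)
  have h_ext : Dfn (α := α) (fun V G f e => ∀ w, w ∈ G.colour 4 → ∀ w', w' ∈ G.colour 4 → (∀ a, a ∈ G.colour 1 → ∀ b, b ∈ G.colour 2 → (Arr G w a b ↔ Arr G w' a b)) → w = w') := by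
    repeat (first
      | exact Dfn.adj _ _
      | exact Dfn.col _ _
      | exact Dfn.eq _ _
      | exact Dfn.ne _ _
      | exact Dfn.plus _ _ _
      | exact d_arr _ _ _
      | exact d_lt _ _
      | exact d_first _
      | exact d_last _
      | exact d_cons _ _
      | exact d_acc _ _ _ _
      | exact d_step _ _
      | apply Dfn.and
      | apply Dfn.or
      | apply Dfn.not
      | apply Dfn.iff
      | apply Dfn.ex
      | apply Dfn.all
      | apply Dfn.exs
      | apply Dfn.alls
      | apply Dfn.imp
      | (apply Dfn.fall; intro _)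
      | exact Dfn.const _)
  have h_acct : Dfn (α := α) (fun V G f e => ∀ z, z ∈ G.colour 2 → ∀ q, q ∈ G.colour 2 → ∀ x, x ∈ G.colour 2 → ∃ y, y ∈ G.colour 2 ∧ Acc G z q x y) := by
    repeat (first
      | exact Dfn.adj _ _
      | exact Dfn.col _ _
      | exact Dfn.eq _ _
      | exact Dfn.ne _ _
      | exact Dfn.plus _ _ _
      | exact d_arr _ _ _
      | exact d_lt _ _
      | exact d_first _
      | exact d_last _
      | exact d_cons _ _
      | exact d_acc _ _ _ _
      | exact d_step _ _
      | apply Dfn.and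
      | apply Dfn.or
      | apply Dfn.not
      | apply Dfn.iff
      | apply Dfn.ex
      | apply Dfn.all
      | apply Dfn.exs
      | apply Dfn.alls
      | apply Dfn.imp
      | (apply Dfn.fall; intro _)
      | exact Dfn.const _)
  have h_accu : Dfn (α := α) (fun V G f e => ∀ z, z ∈ G.colour 2 → ∀ q, q ∈ G.colour 2 → ∀ x, x ∈ G.colour 2 → ∀ y, y ∈ G.colour 2 → ∀ y', y' ∈ G.colour 2 → Acc G z q x y → Acc G z q x y' → y = y') := by
    repeat (first
      | exact Dfn.adj _ _
      | exact Dfn.col _ _
      | exact Dfn.eq _ _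
      | exact Dfn.ne _ _
      | exact Dfn.plus _ _ _
      | exact d_arr _ _ _
      | exact d_lt _ _
      | exact d_first _
      | exact d_last _
      | exact d_cons _ _
      | exact d_acc _ _ _ _
      | exact d_step _ _
      | apply Dfn.and
      | apply Dfn.or
      | apply Dfn.not
      | apply Dfn.iff
      | apply Dfn.ex
      | apply Dfn.all
      | apply Dfn.exs
      | apply Dfn.alls
      | apply Dfn.imp
      | (apply Dfn.fall; intro _)
      | exact Dfn.const _)
  have h_acci : Dfn (α := α) (fun V G f e => ∀ z, z ∈ G.colour 2 → ∀ z', z' ∈ G.colour 2 → ∀ q, q ∈ G.colour 2 → ∀ x, x ∈ G.colour 2 → ∀ y, y ∈ G.colour 2 → Acc G z q x y → Acc G z' q x y → z = z') := by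
    repeat (first
      | exact Dfn.adj _ _
      | exact Dfn.col _ _
      | exact Dfn.eq _ _
      | exact Dfn.ne _ _
      | exact Dfn.plus _ _ _
      | exact d_arr _ _ _
      | exact d_lt _ _
      | exact d_first _
      | exact d_last _
      | exact d_cons _ _
      | exact d_acc _ _ _ _
      | exact d_step _ _
      | apply Dfn.and
      | apply Dfn.or
      | apply Dfn.not
      | apply Dfn.iff
      | apply Dfn.ex
      | apply Dfn.all
      | apply Dfn.exs
      | apply Dfn.alls
      | apply Dfn.imp
      | (apply Dfn.fall; intro _)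
      | exact Dfn.const _)
  have h_accq : Dfn (α := α) (fun V G f e => ∀ z, z ∈ G.colour 2 → ∀ z', z' ∈ G.colour 2 → ∀ q, q ∈ G.colour 2 → ∀ q', q' ∈ G.colour 2 → ∀ x, x ∈ G.colour 2 → ∀ x', x' ∈ G.colour 2 → ∀ y, y ∈ G.colour 2 → ∀ y', y' ∈ G.colour 2 → Acc G z q x y → Acc G z' q x' y → Acc G z q' x y' → Acc G z' q' x' y' → x = x' ∨ q = q') := by
    repeat (first
      | exact Dfn.adj _ _
      | exact Dfn.col _ _
      | exact Dfn.eq _ _
      | exact Dfn.ne _ _
      | exact Dfn.plus _ _ _
      | exact d_arr _ _ _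
      | exact d_lt _ _
      | exact d_first _
      | exact d_last _
      | exact d_cons _ _
      | exact d_acc _ _ _ _
      | exact d_step _ _
      | apply Dfn.and
      | apply Dfn.or
      | apply Dfn.not
      | apply Dfn.iff
      | apply Dfn.ex
      | apply Dfn.all
      | apply Dfn.exs
      | apply Dfn.alls
      | apply Dfn.imp
      | (apply Dfn.fall; intro _)
      | exact Dfn.const _)
  refine (h_cover.and (h_disj.and (h_fst.and (h_snd.and (h_pairu.and (h_lt_irr.and (h_lt_trans.and (h_lt_tot.and (h_mat.and (h_matu.and (h_val.and (h_valu.and (h_wne.and (h_upd.and (h_ext.and (h_acct.and (h_accu.and (h_acci.and h_accq)))))))))))))))))).congr fun V G f e => ?_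
  constructor
  · rintro ⟨k_cover, k_disj, k_fst, k_snd, k_pairu, k_lt_irr, k_lt_trans, k_lt_tot, k_mat, k_matu, k_val, k_valu, k_wne, k_upd, k_ext, k_acct, k_accu, k_acci, k_accq⟩
    exact ⟨k_cover, k_disj, k_fst, k_snd, k_pairu, k_lt_irr, k_lt_trans, k_lt_tot, k_mat, k_matu, k_val, k_valu, k_wne, k_upd, k_ext, k_acct, k_accu, k_acci, k_accq⟩
  · intro h
    exact ⟨h.cover, h.disj, h.fst, h.snd, h.pairu, h.lt_irr, h.lt_trans, h.lt_tot, h.mat, h.matu, h.val, h.valu, h.wne, h.upd, h.ext, h.acct, h.accu, h.acci, h.accq⟩

theorem d_big (N : ℕ) : Dfn (α := α) (fun V G f e => Big N G) := by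
  unfold Pool.Agent.Y553.PL.Big
  repeat (first
    | exact Dfn.adj _ _
    | exact Dfn.col _ _
    | exact Dfn.eq _ _
    | exact Dfn.ne _ _
    | exact Dfn.plus _ _ _
    | exact d_arr _ _ _
    | exact d_lt _ _
    | exact d_first _
    | exact d_last _
    | exact d_cons _ _
    | exact d_acc _ _ _ _
    | exact d_step _ _
    | exact d_ax
    | apply Dfn.and
    | apply Dfn.or
    | apply Dfn.not
    | apply Dfn.iff
    | apply Dfn.ex
    | apply Dfn.all
    | apply Dfn.exs
    | apply Dfn.alls
    | apply Dfn.imp
    | (apply Dfn.fall; intro _)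
    | exact Dfn.const _)

theorem d_sax : Dfn (α := α) (fun V G f e => Sax G) := by
  have h_out : Dfn (α := α) (fun V G f e => ∀ u, u ∈ G.colour 0 → ∀ v, v ∈ G.colour 0 → ∀ v', v' ∈ G.colour 0 → Step G u v → Step G u v' → v = v') := by
    repeat (first
      | exact Dfn.adj _ _
      | exact Dfn.col _ _
      | exact Dfn.eq _ _
      | exact Dfn.ne _ _
      | exact Dfn.plus _ _ _
      | exact d_arr _ _ _
      | exact d_lt _ _
      | exact d_first _
      | exact d_last _
      | exact d_cons _ _
      | exact d_acc _ _ _ _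
      | exact d_step _ _
      | exact d_ax
      | exact d_big _
      | apply Dfn.and
      | apply Dfn.or
      | apply Dfn.not
      | apply Dfn.iff
      | apply Dfn.ex
      | apply Dfn.all
      | apply Dfn.exs
      | apply Dfn.alls
      | apply Dfn.imp
      | (apply Dfn.fall; intro _)
      | exact Dfn.const _)
  have h_two : Dfn (α := α) (fun V G f e => ∀ e, e ∈ G.colour 0 → ∀ e', e' ∈ G.colour 0 → ∀ e'', e'' ∈ G.colour 0 → e ∈ G.colour 6 → e' ∈ G.colour 6 → e'' ∈ G.colour 6 → e = e' ∨ e = e'' ∨ e' = e'') := by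
    repeat (first
      | exact Dfn.adj _ _
      | exact Dfn.col _ _
      | exact Dfn.eq _ _
      | exact Dfn.ne _ _
      | exact Dfn.plus _ _ _
      | exact d_arr _ _ _
      | exact d_lt _ _
      | exact d_first _
      | exact d_last _
      | exact d_cons _ _
      | exact d_acc _ _ _ _
      | exact d_step _ _
      | exact d_ax
      | exact d_big _
      | apply Dfn.and
      | apply Dfn.or
      | apply Dfn.not
      | apply Dfn.iff
      | apply Dfn.ex
      | apply Dfn.all
      | apply Dfn.exs
      | apply Dfn.alls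
      | apply Dfn.imp
      | (apply Dfn.fall; intro _)
      | exact Dfn.const _)
  refine (h_out.and h_two).congr fun V G f e => ?_
  constructor
  · rintro ⟨k_out, k_two⟩
    exact ⟨k_out, k_two⟩
  · intro h
    exact ⟨h.out, h.two⟩

theorem d_prev (z0 Z a z : α) : Dfn (fun V G f e => Prev G (e z0) (e Z) (e a) (e z)) := by
  unfold Pool.Agent.Y553.PL.Prev
  repeat (first
    | exact Dfn.adj _ _
    | exact Dfn.col _ _
    | exact Dfn.eq _ _
    | exact Dfn.ne _ _
    | exact Dfn.plus _ _ _
    | exact d_arr _ _ _
    | exact d_lt _ _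
    | exact d_first _
    | exact d_last _
    | exact d_cons _ _
    | exact d_acc _ _ _ _
    | exact d_step _ _
    | exact d_ax
    | exact d_big _
    | exact d_sax
    | apply Dfn.and
    | apply Dfn.or
    | apply Dfn.not
    | apply Dfn.iff
    | apply Dfn.ex
    | apply Dfn.all
    | apply Dfn.exs
    | apply Dfn.alls
    | apply Dfn.imp
    | (apply Dfn.fall; intro _)
    | exact Dfn.const _)

theorem d_run (z0 Q w Z : α) : Dfn (fun V G f e => Run G (e z0) (e Q) (e w) (e Z)) := by
  unfold Pool.Agent.Y553.PL.Run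
  repeat (first
    | exact Dfn.adj _ _
    | exact Dfn.col _ _
    | exact Dfn.eq _ _
    | exact Dfn.ne _ _
    | exact Dfn.plus _ _ _
    | exact d_arr _ _ _
    | exact d_lt _ _
    | exact d_first _
    | exact d_last _
    | exact d_cons _ _
    | exact d_acc _ _ _ _
    | exact d_step _ _
    | exact d_ax
    | exact d_big _
    | exact d_sax
    | exact d_prev _ _ _ _
    | apply Dfn.and
    | apply Dfn.or
    | apply Dfn.not
    | apply Dfn.iff
    | apply Dfn.ex
    | apply Dfn.all
    | apply Dfn.exs
    | apply Dfn.alls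
    | apply Dfn.imp
    | (apply Dfn.fall; intro _)
    | exact Dfn.const _)

theorem d_h (z0 Q w c : α) : Dfn (fun V G f e => H G (e z0) (e Q) (e w) (e c)) := by
  unfold Pool.Agent.Y553.PL.H
  repeat (first
    | exact Dfn.adj _ _
    | exact Dfn.col _ _
    | exact Dfn.eq _ _
    | exact Dfn.ne _ _
    | exact Dfn.plus _ _ _
    | exact d_arr _ _ _
    | exact d_lt _ _
    | exact d_first _
    | exact d_last _
    | exact d_cons _ _
    | exact d_acc _ _ _ _
    | exact d_step _ _
    | exact d_ax
    | exact d_big _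
    | exact d_sax
    | exact d_prev _ _ _ _
    | exact d_run _ _ _ _
    | apply Dfn.and
    | apply Dfn.or
    | apply Dfn.not
    | apply Dfn.iff
    | apply Dfn.ex
    | apply Dfn.all
    | apply Dfn.exs
    | apply Dfn.alls
    | apply Dfn.imp
    | (apply Dfn.fall; intro _)
    | exact Dfn.const _)

variable {J : ℕ}

theorem d_link (x y z0 s : α) (q c : Fin J → α) : Dfn (fun V G f e => Link G f (e x) (e y) (e z0) (fun i => e (q i)) (e s) (fun i => e (c i))) := by
  unfold Pool.Agent.Y553.PL.Link
  repeat (first
    | exact Dfn.adj _ _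
    | exact Dfn.col _ _
    | exact Dfn.eq _ _
    | exact Dfn.ne _ _
    | exact Dfn.plus _ _ _
    | exact d_arr _ _ _
    | exact d_lt _ _
    | exact d_first _
    | exact d_last _
    | exact d_cons _ _
    | exact d_acc _ _ _ _
    | exact d_step _ _
    | exact d_ax
    | exact d_big _
    | exact d_sax
    | exact d_prev _ _ _ _
    | exact d_run _ _ _ _
    | exact d_h _ _ _ _
    | apply Dfn.and
    | apply Dfn.or
    | apply Dfn.not
    | apply Dfn.iff
    | apply Dfn.ex
    | apply Dfn.all
    | apply Dfn.exs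
    | apply Dfn.alls
    | apply Dfn.imp
    | (apply Dfn.fall; intro _)
    | exact Dfn.const _)

theorem d_at (x y z0 a u : α) (q X : Fin J → α) : Dfn (fun V G f e => At G f (e x) (e y) (e z0) (fun i => e (q i)) (fun i => e (X i)) (e a) (e u)) := by
  unfold Pool.Agent.Y553.PL.At
  repeat (first
    | exact Dfn.adj _ _
    | exact Dfn.col _ _
    | exact Dfn.eq _ _
    | exact Dfn.ne _ _
    | exact Dfn.plus _ _ _
    | exact d_arr _ _ _
    | exact d_lt _ _
    | exact d_first _
    | exact d_last _
    | exact d_cons _ _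
    | exact d_acc _ _ _ _
    | exact d_step _ _
    | exact d_ax
    | exact d_big _
    | exact d_sax
    | exact d_prev _ _ _ _
    | exact d_run _ _ _ _
    | exact d_h _ _ _ _
    | exact d_link _ _ _ _ _ _
    | apply Dfn.and
    | apply Dfn.or
    | apply Dfn.not
    | apply Dfn.iff
    | apply Dfn.ex
    | apply Dfn.all
    | apply Dfn.exs
    | apply Dfn.alls
    | apply Dfn.imp
    | (apply Dfn.fall; intro _)
    | exact Dfn.const _)

theorem d_good (x y z0 : α) (q : Fin J → α) : Dfn (fun V G f e => Good G f (e x) (e y) (e z0) (fun i => e (q i))) := by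
  unfold Pool.Agent.Y553.PL.Good
  repeat (first
    | exact Dfn.adj _ _
    | exact Dfn.col _ _
    | exact Dfn.eq _ _
    | exact Dfn.ne _ _
    | exact Dfn.plus _ _ _
    | exact d_arr _ _ _
    | exact d_lt _ _
    | exact d_first _
    | exact d_last _
    | exact d_cons _ _
    | exact d_acc _ _ _ _
    | exact d_step _ _
    | exact d_ax
    | exact d_big _
    | exact d_sax
    | exact d_prev _ _ _ _
    | exact d_run _ _ _ _
    | exact d_h _ _ _ _
    | exact d_link _ _ _ _ _ _
    | exact d_at _ _ _ _ _ _ _
    | apply Dfn.and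
    | apply Dfn.or
    | apply Dfn.not
    | apply Dfn.iff
    | apply Dfn.ex
    | apply Dfn.all
    | apply Dfn.exs
    | apply Dfn.alls
    | apply Dfn.imp
    | (apply Dfn.fall; intro _)
    | exact Dfn.const _)

end

theorem d_rr {J : ℕ} (j : ℕ) : ∀ {α : Type} (x y z0 u v : α) (q : Fin J → α),
    Dfn (fun V G f e => RR G f (e x) (e y) (e z0) (fun i => e (q i)) j (e u) (e v)) := by
  induction j with
  | zero =>
    intro α x y z0 u v q
    unfold Pool.Agent.Y553.PL.RR
    repeat (first
      | exact Dfn.adj _ _
      | exact Dfn.col _ _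
      | exact Dfn.eq _ _
      | exact Dfn.ne _ _
      | exact Dfn.plus _ _ _
      | exact d_arr _ _ _
      | exact d_lt _ _
      | exact d_first _
      | exact d_last _
      | exact d_cons _ _
      | exact d_acc _ _ _ _
      | exact d_step _ _
      | exact d_ax
      | exact d_big _
      | exact d_sax
      | exact d_prev _ _ _ _
      | exact d_run _ _ _ _
      | exact d_h _ _ _ _
      | exact d_link _ _ _ _ _ _
      | exact d_at _ _ _ _ _ _ _
      | exact d_good _ _ _ _
      | apply Dfn.and
      | apply Dfn.or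
      | apply Dfn.not
      | apply Dfn.iff
      | apply Dfn.ex
      | apply Dfn.all
      | apply Dfn.exs
      | apply Dfn.alls
      | apply Dfn.imp
      | (apply Dfn.fall; intro _)
      | exact Dfn.const _)
  | succ j ih =>
    intro α x y z0 u v q
    unfold Pool.Agent.Y553.PL.RR
    repeat (first
      | exact Dfn.adj _ _
      | exact Dfn.col _ _
      | exact Dfn.eq _ _
      | exact Dfn.ne _ _
      | exact Dfn.plus _ _ _
      | exact d_arr _ _ _
      | exact d_lt _ _
      | exact d_first _
      | exact d_last _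
      | exact d_cons _ _
      | exact d_acc _ _ _ _
      | exact d_step _ _
      | exact d_ax
      | exact d_big _
      | exact d_sax
      | exact d_prev _ _ _ _
      | exact d_run _ _ _ _
      | exact d_h _ _ _ _
      | exact d_link _ _ _ _ _ _
      | exact d_at _ _ _ _ _ _ _
      | exact d_good _ _ _ _
      | exact ih _ _ _ _ _ _
      | apply Dfn.and
      | apply Dfn.or
      | apply Dfn.not
      | apply Dfn.iff
      | apply Dfn.ex
      | apply Dfn.all
      | apply Dfn.exs
      | apply Dfn.alls
      | apply Dfn.imp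
      | (apply Dfn.fall; intro _)
      | exact Dfn.const _)

theorem d_main {α : Type} (m J N : ℕ) (a : α) :
    Dfn (fun V G f e => Main m J N G f (e a)) := by
  unfold Pool.Agent.Y553.PL.Main
  repeat (first
    | exact Dfn.adj _ _
    | exact Dfn.col _ _
    | exact Dfn.eq _ _
    | exact Dfn.ne _ _
    | exact Dfn.plus _ _ _
    | exact d_arr _ _ _
    | exact d_lt _ _
    | exact d_first _
    | exact d_last _
    | exact d_cons _ _
    | exact d_acc _ _ _ _
    | exact d_step _ _
    | exact d_ax
    | exact d_big _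
    | exact d_sax
    | exact d_prev _ _ _ _
    | exact d_run _ _ _ _
    | exact d_h _ _ _ _
    | exact d_link _ _ _ _ _ _
    | exact d_at _ _ _ _ _ _ _
    | exact d_good _ _ _ _
    | exact d_rr _ _ _ _ _ _ _
    | apply Dfn.and
    | apply Dfn.or
    | apply Dfn.not
    | apply Dfn.iff
    | apply Dfn.ex
    | apply Dfn.all
    | apply Dfn.exs
    | apply Dfn.alls
    | apply Dfn.imp
    | (apply Dfn.fall; intro _)
    | exact Dfn.const _)

/-- DEF -/
theorem t_DEF : St_DEF := by
  intro m J N
  obtain ⟨φ, hφ⟩ := d_main m J N (0 : Fin 1)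
  exact ⟨φ, fun V G f a => hφ V G f a⟩

end Pool.Agent.Y813.PL
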